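import Pool.Agent.TH206.Fro.Defs

/-! Stable sets and a last variable (part NM-D, second proof). -/

set_option autoImplicit false

namespace Pool.Agent.TH494.NM

open Finset Pool.Agent.TH206.Fro
open scoped Pointwise

theorem stab_up {n : ℕ} (e : ℕ) (m : Fin n) (hm : ∀ i, i ≤ m) (B : Finset (Fin n →₀ ℕ))
    (hs : Stable B) (w x : Fin n →₀ ℕ) (hx : x ∈ Mon n e) (h : w + Finsupp.single m e ∈ B) :
    w + x ∈ B := by
  classical
  have key : ∀ t : ℕ, ∀ x ∈ Mon n e, x m + t = e → w + x ∈ B := by
    intro t
    induction t with
    | zero =>
      intro x hx hxm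
      rw [mem_Mon] at hx
      have h1 : x = Finsupp.single m e := by
        ext i
        rw [Finsupp.single_apply]
        by_cases hi : m = i
        · rw [if_pos hi, ← hi]
          omega
        · rw [if_neg hi]
          have h2 : x m + ∑ j ∈ Finset.univ.erase m, x j = ∑ j, x j :=
            Finset.add_sum_erase Finset.univ (fun j => x j) (Finset.mem_univ m)
          have h3 : x i ≤ ∑ j ∈ Finset.univ.erase m, x j :=
            Finset.single_le_sum (f := fun j => x j) (fun _ _ => Nat.zero_le _)
              (Finset.mem_erase.2 ⟨Ne.symm hi, Finset.mem_univ i⟩)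
          omega
      rw [h1]
      exact h
    | succ t ih =>
      intro x hx hxm
      have hx' := hx
      rw [mem_Mon] at hx'
      have h2 : x m + ∑ j ∈ Finset.univ.erase m, x j = ∑ j, x j :=
        Finset.add_sum_erase Finset.univ (fun j => x j) (Finset.mem_univ m)
      obtain ⟨i, hi, hxi⟩ : ∃ i ∈ Finset.univ.erase m, x i ≠ 0 := by
        by_contra hcon
        push Not at hcon
        have h3 : ∑ j ∈ Finset.univ.erase m, x j = 0 := Finset.sum_eq_zero hcon
        omega
      have him : i ≠ m := Finset.ne_of_mem_erase hi
      obtain ⟨x', hx1⟩ : ∃ x' : Fin n →₀ ℕ,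
          x' = x - Finsupp.single i 1 + Finsupp.single m 1 := ⟨_, rfl⟩
      have hx2 : ∀ j, x' j = x j - (if i = j then 1 else 0) + (if m = j then 1 else 0) := by
        intro j
        rw [hx1, Finsupp.add_apply, Finsupp.tsub_apply, Finsupp.single_apply, Finsupp.single_apply]
      have e1 : x' + Finsupp.single i 1 = x + Finsupp.single m 1 := by
        ext j
        rw [Finsupp.add_apply, Finsupp.add_apply, hx2, Finsupp.single_apply, Finsupp.single_apply]
        by_cases hij : i = j
        · subst hij
          rw [if_pos rfl]
          omega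
        · rw [if_neg hij]
          omega
      have e2 : x' ∈ Mon n e := by
        have h4 := congrArg Finsupp.degree e1
        rw [map_add, map_add, Finsupp.degree_single, Finsupp.degree_single,
          mem_Mon'.1 hx] at h4
        rw [mem_Mon']
        omega
      have e3 : x' m = x m + 1 := by
        rw [hx2, if_neg him, if_pos rfl]
        omega
      have h5 := ih x' e2 (by omega)
      have h6 := hs _ h5 i m (lt_of_le_of_ne (hm i) him)
        (by rw [Finsupp.add_apply, e3]; omega)
      have h7 : mv i m (w + x') = w + x := by
        unfold mv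
        ext j
        rw [Finsupp.add_apply, Finsupp.tsub_apply, Finsupp.add_apply, Finsupp.add_apply, hx2,
          Finsupp.single_apply, Finsupp.single_apply]
        by_cases hij : i = j
        · subst hij
          rw [if_pos rfl, if_neg (Ne.symm him)]
          omega
        · rw [if_neg hij]
          omega
      rw [h7] at h6
      exact h6
  have hx' := hx
  rw [mem_Mon] at hx'
  have h8 : x m ≤ e := by
    rw [← hx']
    exact Finset.single_le_sum (f := fun j => x j) (fun _ _ => Nat.zero_le _) (Finset.mem_univ m)
  exact key (e - x m) x hx (by omega)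

/-- the set of the w' with w' x_m^e outside B is not larger than the complement of B -/
theorem Bc_card {n : ℕ} (f e : ℕ) (m : Fin n) (B : Finset (Fin n →₀ ℕ)) :
    ((Mon n f).filter (fun w => w + Finsupp.single m e ∉ B)).card ≤ (Mon n (f + e) \ B).card := by
  classical
  refine Finset.card_le_card_of_injOn (fun w => w + Finsupp.single m e) ?_ ?_
  · intro w hw
    rw [Finset.mem_coe, Finset.mem_filter] at hw
    rw [Finset.mem_coe, Finset.mem_sdiff]
    refine ⟨?_, hw.2⟩
    rw [mem_Mon', map_add, Finsupp.degree_single, mem_Mon'.1 hw.1]
  · intro a _ b _ hab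
    exact add_right_cancel hab

end Pool.Agent.TH494.NM
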