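import Pool.Agent.TH206.Fro.Final

/-! Double counting with the weights `W` (part NM-E, second proof). -/

set_option autoImplicit false

namespace Pool.Agent.TH494.NM

open Finset Pool.Agent.TH206.Fro
open scoped Pointwise

theorem dc (n K f : ℕ) (hn : 1 ≤ n) (U Y V : Finset (Fin n →₀ ℕ))
    (hU : U ⊆ Mon n (K + f)) (hY : Y ⊆ Mon n K) (hV : V ⊆ Mon n f)
    (h : ∀ y ∈ Mon n K, ∀ w ∈ Mon n f, y + w ∈ U → y ∈ Y ∨ w ∈ V) :
    U.card * (K + f).choose K ≤
      Y.card * (K + f + n - 1).choose f + V.card * (K + f + n - 1).choose K := by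
  classical
  have hpair : ∑ c ∈ Mon n K, ∑ c' ∈ Mon n f, (if c + c' ∈ U then W c c' else 0) =
      U.card * (K + f).choose K := by
    rw [← Finset.sum_product']
    have h1 : ∑ x ∈ Mon n K ×ˢ Mon n f, (if x.1 + x.2 ∈ U then W x.1 x.2 else 0) =
        ∑ x ∈ Mon n K ×ˢ Mon n f, ∑ u ∈ U, (if x.1 + x.2 = u then W x.1 x.2 else 0) := by
      refine Finset.sum_congr rfl fun x _ => ?_
      rw [Finset.sum_ite_eq]
    rw [h1, Finset.sum_comm]
    rw [← smul_eq_mul, ← Finset.sum_const]
    refine Finset.sum_congr rfl fun u hu => ?_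
    rw [← Finset.sum_filter]
    exact split_thm n K f u (hU hu)
  rw [← hpair]
  have h2 : ∑ c ∈ Mon n K, ∑ c' ∈ Mon n f, (if c + c' ∈ U then W c c' else 0) ≤
      ∑ c ∈ Mon n K, ∑ c' ∈ Mon n f,
        ((if c ∈ Y then W c c' else 0) + (if c' ∈ V then W c c' else 0)) := by
    refine Finset.sum_le_sum fun c hc => Finset.sum_le_sum fun c' hc' => ?_
    by_cases hu : c + c' ∈ U
    · rw [if_pos hu]
      rcases h c hc c' hc' hu with h3 | h3
      · rw [if_pos h3]
        exact Nat.le_add_right _ _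
      · rw [if_pos h3]
        exact Nat.le_add_left _ _
    · rw [if_neg hu]
      exact Nat.zero_le _
  refine h2.trans (le_of_eq ?_)
  simp only [Finset.sum_add_distrib]
  congr 1
  · have h4 : ∀ c ∈ Mon n K, ∑ c' ∈ Mon n f, (if c ∈ Y then W c c' else 0) =
        if c ∈ Y then (K + f + n - 1).choose f else 0 := by
      intro c hc
      by_cases hcY : c ∈ Y
      · simp only [if_pos hcY]
        exact vand_thm n K f hn c hc
      · simp only [if_neg hcY, Finset.sum_const_zero]
    rw [Finset.sum_congr rfl h4, ← Finset.sum_filter, Finset.sum_const, smul_eq_mul,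
      Finset.filter_mem_eq_inter, Finset.inter_eq_right.2 hY]
  · rw [Finset.sum_comm]
    have h4 : ∀ c' ∈ Mon n f, ∑ c ∈ Mon n K, (if c' ∈ V then W c c' else 0) =
        if c' ∈ V then (K + f + n - 1).choose K else 0 := by
      intro c' hc'
      by_cases hcV : c' ∈ V
      · simp only [if_pos hcV]
        have h5 := vand_thm n f K hn c' hc'
        rw [add_comm K f, ← h5]
        exact Finset.sum_congr rfl fun c _ => MainIneq.W_comm c c'
      · simp only [if_neg hcV, Finset.sum_const_zero]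
    rw [Finset.sum_congr rfl h4, ← Finset.sum_filter, Finset.sum_const, smul_eq_mul,
      Finset.filter_mem_eq_inter, Finset.inter_eq_right.2 hV]

theorem double_count (n k d e : ℕ) (hn : 1 ≤ n) (hed : e ≤ d) (U : Finset (Fin n →₀ ℕ))
    (Y V : Finset (Fin n →₀ ℕ)) (hU : U ⊆ Mon n (k + d)) (hY : Y ⊆ Mon n (k + e))
    (hV : V ⊆ Mon n (d - e))
    (h : ∀ y ∈ Mon n (k + e), ∀ w ∈ Mon n (d - e), y + w ∈ U → y ∈ Y ∨ w ∈ V) :
    U.card * (k + d).choose (k + e) ≤
      Y.card * (k + d + n - 1).choose (d - e) + V.card * (k + d + n - 1).choose (k + e) := by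
  have h1 : k + e + (d - e) = k + d := by omega
  have h2 := dc n (k + e) (d - e) hn U Y V (by rw [h1]; exact hU) hY hV h
  rw [h1] at h2
  exact h2

end Pool.Agent.TH494.NM
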